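import Pool.Agent.helper37.NA.Spec

/-!
# Project na, row NQC
-/

set_option autoImplicit false

namespace Pool.Agent.NAB

open Pool.Agent.helper58.DC Pool.Agent.DI Pool.Agent.GR Pool.Agent.OB Pool.Agent.DR Pool.Agent.FI Pool.Agent.FI3 Pool.Agent.FI4 Pool.Agent.FI4I Pool.Agent.LE Pool.Agent.L5

theorem NQC_mem_Cz {G : Type} [Group G] (L : Subgroup G) (y x : G) : x ∈ Cz L y ↔ x ∈ L ∧ y * x = x * y := by
  unfold Cz
  rw [Subgroup.mem_inf, Subgroup.mem_centralizer_iff]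
  simp

/-- normalisers grow -/
theorem NQC_grow {p : ℕ} [Fact p.Prime] {G : Type} [Group G] [Finite G] (S D : Subgroup G) (hS : IsPGroup p S)
    (hDS : D ≤ S) (hne : D ≠ S) : ∃ n ∈ S, n ∉ D ∧ n ∈ nz D := by
  have hnil : Group.IsNilpotent S := hS.isNilpotent
  have hlt : D.subgroupOf S < ⊤ := by
    refine lt_top_iff_ne_top.2 fun h => hne ?_
    exact le_antisymm hDS (Subgroup.subgroupOf_eq_top.1 h)
  have h1 := Group.normalizerCondition_of_isNilpotent (D.subgroupOf S) hlt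
  obtain ⟨-, n, hn1, hn2⟩ := SetLike.lt_iff_le_and_exists.1 h1
  refine ⟨n, n.2, fun h => hn2 (Subgroup.mem_subgroupOf.2 h), ?_⟩
  rw [Subgroup.mem_normalizer_iff] at hn1 ⊢
  intro d
  constructor
  · intro hd
    have h2 := (hn1 ⟨d, hDS hd⟩).1 (Subgroup.mem_subgroupOf.2 hd)
    exact Subgroup.mem_subgroupOf.1 h2
  · intro hd
    have hdS : d ∈ S := by
      have h3 := S.mul_mem (S.mul_mem (S.inv_mem n.2) (hDS hd)) n.2
      have h4 : (n : G)⁻¹ * (n * d * (n : G)⁻¹) * n = d := by group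
      rwa [h4] at h3
    have h2 := (hn1 ⟨d, hdS⟩).2 (Subgroup.mem_subgroupOf.2 hd)
    exact Subgroup.mem_subgroupOf.1 h2

theorem NQC (hNCJ : NCJ_stmt) (hSYL : SYL_stmt) (hDUN : DUN_stmt) (hDCM : DCM_stmt) (hCLS : CLS_stmt) (hCCI : CCI_stmt) :
    NQC_stmt := by
  intro p M hS G _ _ L H D hHL hDp hDH hLH g hg hgI hgood
  classical
  have : Fact p.Prime := ⟨hS.pr⟩
  obtain ⟨s1, s2, -, -, -, -, -, -, -⟩ := hSYL p G
  have hncj := hNCJ p G
  -- (1)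
  have one : ∀ u : G, D ≤ Cz H u → Nat.card D = pp p (Cz H u) → D ≤ Cz L u ∧ Nat.card D = pp p (Cz L u) := by
    intro u hu hc
    have hDL : D ≤ Cz L u := fun d hd =>
      (NQC_mem_Cz L u d).2 ⟨hHL ((NQC_mem_Cz H u d).1 (hu hd)).1, ((NQC_mem_Cz H u d).1 (hu hd)).2⟩
    refine ⟨hDL, ?_⟩
    obtain ⟨S, hDS, hSC, hSp, hSc⟩ := s2 D (Cz L u) hDp hDL
    by_cases hDS' : D = S
    · rw [hDS', hSc]
    exfalso
    obtain ⟨n, hnS, hnD, hnn⟩ := NQC_grow S D hSp hDS hDS'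
    have hTp : IsPGroup p (S ⊓ nz D : Subgroup G) := hSp.to_le inf_le_left
    have hTH : S ⊓ nz D ≤ Cz H u := by
      intro t ht
      have ht1 := (NQC_mem_Cz L u t).1 (hSC (Subgroup.mem_inf.1 ht).1)
      exact (NQC_mem_Cz H u t).2 ⟨hLH (Subgroup.mem_inf.2 ⟨ht1.1, (Subgroup.mem_inf.1 ht).2⟩), ht1.2⟩
    have hc1 := (s1 _ _ hTp hTH).1
    have hDT : D ≤ S ⊓ nz D := le_inf hDS Subgroup.le_normalizer
    have hlt : D < S ⊓ nz D := lt_of_le_of_ne hDT fun h => hnD (h ▸ Subgroup.mem_inf.2 ⟨hnS, hnn⟩)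
    have hc2 : Nat.card D < Nat.card (S ⊓ nz D : Subgroup G) := by
      refine lt_of_le_of_ne (Subgroup.card_le_of_le hDT) fun h => hlt.ne ?_
      exact Subgroup.eq_of_le_of_card_ge hDT h.ge
    omega
  -- (2)
  have two : ∀ u w l h h' : G, l ∈ L → h ∈ H → h' ∈ H → D ≤ Cz H (h * u * h⁻¹) →
      Nat.card D = pp p (Cz H (h * u * h⁻¹)) → D ≤ Cz H (h' * w * h'⁻¹) → w = l * u * l⁻¹ →
      ∃ n ∈ H, w = n * u * n⁻¹ := by
    intro u w l h h' hl hh hh' hD1 hD2 hD3 hw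
    obtain ⟨o1, o2⟩ := one _ hD1 hD2
    have hl' : h' * l * h⁻¹ ∈ L := L.mul_mem (L.mul_mem (hHL hh') hl) (L.inv_mem (hHL hh))
    have e1 : (h' * l * h⁻¹) * (h * u * h⁻¹) * (h' * l * h⁻¹)⁻¹ = h' * w * h'⁻¹ := by
      rw [hw]; group
    have hcz : (h' * l * h⁻¹) * (h * u * h⁻¹) * (h' * l * h⁻¹)⁻¹ ∈ cz D := by
      rw [e1, Subgroup.mem_centralizer_iff]
      intro d hd
      exact ((NQC_mem_Cz H _ d).1 (hD3 hd)).2.symm
    obtain ⟨n, hnL, hnn, hn⟩ := hncj L D _ hDp o1 o2 _ hl' hcz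
    have hnH : n ∈ H := hLH (Subgroup.mem_inf.2 ⟨hnL, hnn⟩)
    refine ⟨h'⁻¹ * n * h, H.mul_mem (H.mul_mem (H.inv_mem hh') hnH) hh, ?_⟩
    rw [e1] at hn
    calc w = h'⁻¹ * (h' * w * h'⁻¹) * h' := by group
      _ = h'⁻¹ * (n * (h * u * h⁻¹) * n⁻¹) * h' := by rw [hn]
      _ = h'⁻¹ * n * h * u * (h'⁻¹ * n * h)⁻¹ := by group
  have key0 : ∀ u w l : G, l ∈ L → g u ≠ 0 → w = l * u * l⁻¹ → (∃ h' ∈ H, D ≤ Cz H (h' * w * h'⁻¹)) → g w = g u := by
    intro u w l hl hu hw ⟨h', hh', hD3⟩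
    obtain ⟨h, hh, hD1, hD2⟩ := hgood u hu
    obtain ⟨n, hn, e⟩ := two u w l h h' hl hh hh' hD1 hD2 hD3 hw
    rw [e]
    exact hg.1 n hn u
  -- the function F
  let F : G → ℂ := fun x => if h : ∃ l ∈ L, g (l * x * l⁻¹) ≠ 0 then g (h.choose * x * h.choose⁻¹) else 0
  have hF : ∀ x l : G, l ∈ L → g (l * x * l⁻¹) ≠ 0 → F x = g (l * x * l⁻¹) := by
    intro x l hl hne
    have h : ∃ l ∈ L, g (l * x * l⁻¹) ≠ 0 := ⟨l, hl, hne⟩
    show (if h : ∃ l ∈ L, g (l * x * l⁻¹) ≠ 0 then g (h.choose * x * h.choose⁻¹) else 0) = _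
    rw [dif_pos h]
    obtain ⟨c1, c2⟩ := h.choose_spec
    obtain ⟨h', hh', hD', -⟩ := hgood _ c2
    refine key0 (l * x * l⁻¹) _ (h.choose * l⁻¹) (L.mul_mem c1 (L.inv_mem hl)) hne ?_ ⟨h', hh', hD'⟩
    group
  have hF0 : ∀ x : G, (¬ ∃ l ∈ L, g (l * x * l⁻¹) ≠ 0) → F x = 0 := by
    intro x h
    show (if h : ∃ l ∈ L, g (l * x * l⁻¹) ≠ 0 then g (h.choose * x * h.choose⁻¹) else 0) = _
    rw [dif_neg h]
  have hFc : ∀ l ∈ L, ∀ x, F (l * x * l⁻¹) = F x := by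
    intro l hl x
    by_cases h : ∃ l ∈ L, g (l * x * l⁻¹) ≠ 0
    · obtain ⟨l', hl', hne⟩ := h
      have e : (l' * l⁻¹) * (l * x * l⁻¹) * (l' * l⁻¹)⁻¹ = l' * x * l'⁻¹ := by group
      rw [hF x l' hl' hne, hF (l * x * l⁻¹) (l' * l⁻¹) (L.mul_mem hl' (L.inv_mem hl)) (by rw [e]; exact hne), e]
    · rw [hF0 x h, hF0]
      rintro ⟨l', hl', hne⟩
      apply h
      refine ⟨l' * l, L.mul_mem hl' hl, ?_⟩
      have e : (l' * l) * x * (l' * l)⁻¹ = l' * (l * x * l⁻¹) * l'⁻¹ := by group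
      rw [e]
      exact hne
  have hFI : ∀ x, IntAt M (F x) := by
    intro x
    by_cases h : ∃ l ∈ L, g (l * x * l⁻¹) ≠ 0
    · obtain ⟨l', hl', hne⟩ := h
      rw [hF x l' hl' hne]
      exact hgI _
    · rw [hF0 x h]
      exact IntAt.zero hS
  refine ⟨F, ⟨hFc, fun x hx => hF0 x ?_⟩, hFI, ?_⟩
  · rintro ⟨l, hl, hne⟩
    apply hx
    have h1 : l * x * l⁻¹ ∈ H := by
      by_contra h
      exact hne (hg.2 _ h)
    have h2 := L.mul_mem (L.mul_mem (L.inv_mem hl) (hHL h1)) hl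
    have h3 : l⁻¹ * (l * x * l⁻¹) * l = x := by group
    rwa [h3] at h2
  intro η hη y hy
  obtain ⟨cc1, -, -⟩ := hCCI G H η hη
  rw [← (cc1 1 g F).2.1]
  refine ((hDCM G H M p hS).1 η (g - F) ?_ ?_ ?_).2 ?_
  · intro l hl x
    show g (l * x * l⁻¹) - F (l * x * l⁻¹) = g x - F x
    rw [hg.1 l hl x, hFc l (hHL hl) x]
  · intro x
    exact (hgI x).sub hS (hFI x)
  · intro x
    obtain ⟨-, -, -, -, -, -, -, -, k9⟩ := hCLS G H x
    exact IntAt.of_isIntegral hS (k9 H le_rfl η hη)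
  · intro w
    by_cases hwH : w ∈ H
    · by_cases hgw : g w = 0
      · by_cases h : ∃ l ∈ L, g (l * w * l⁻¹) ≠ 0
        · right
          by_contra hcon
          obtain ⟨l, hl, hne⟩ := h
          obtain ⟨h1, hh1, hd⟩ := (hDUN p M hS G H η hη D y hy).2.1 w hwH hcon
          have hD' : D ≤ Cz H (h1 * w * h1⁻¹) := by
            intro d hd'
            obtain ⟨e1, e2⟩ := (NQC_mem_Cz H w _).1 (hd d hd')
            refine (NQC_mem_Cz H _ d).2 ⟨hDH hd', ?_⟩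
            calc h1 * w * h1⁻¹ * d = h1 * (w * (h1⁻¹ * d * h1)) * h1⁻¹ := by group
              _ = h1 * ((h1⁻¹ * d * h1) * w) * h1⁻¹ := by rw [e2]
              _ = d * (h1 * w * h1⁻¹) := by group
          have h2 := key0 (l * w * l⁻¹) w l⁻¹ (L.inv_mem hl) hne (by group) ⟨h1, hh1, hD'⟩
          rw [hgw] at h2
          exact hne h2.symm
        · left
          show InM M (g w - F w)
          rw [hgw, hF0 w h, sub_zero]
          exact InM.zero hS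
      · left
        show InM M (g w - F w)
        have h1 := hF w 1 L.one_mem (by simpa using hgw)
        rw [h1]
        simpa using InM.zero hS
    · right
      obtain ⟨-, -, -, -, -, -, k7, -, -⟩ := hCLS G H w
      rw [k7 η hη.1 hwH]
      exact InM.zero hS

end Pool.Agent.NAB
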