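import Pool.Agent.helper97.NA.SpecE

/-!
# Project nx, row XFX
-/

set_option autoImplicit false

namespace Pool.Agent.NAB

open Pool.Agent.helper58.DC Pool.Agent.DI Pool.Agent.GR Pool.Agent.OB Pool.Agent.DR Pool.Agent.FI Pool.Agent.FI3 Pool.Agent.FI4 Pool.Agent.FI4I Pool.Agent.FI4E Pool.Agent.LE Pool.Agent.L5

theorem XFX_fix {G : Type} [Group G] (g : G) (P : Subgroup G) : cjS g P = P ↔ g ∈ nz P := by
  rw [Subgroup.mem_normalizer_iff]
  constructor
  · intro h x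
    constructor
    · intro hx
      rw [← h, mem_cjS]
      have e : g⁻¹ * (g * x * g⁻¹) * g = x := by group
      rwa [e]
    · intro hx
      rw [← h, mem_cjS] at hx
      have e : g⁻¹ * (g * x * g⁻¹) * g = x := by group
      rwa [e] at hx
  · intro h
    ext x
    rw [mem_cjS]
    have e : g * (g⁻¹ * x * g) * g⁻¹ = x := by group
    have h1 := h (g⁻¹ * x * g)
    rw [e] at h1
    exact h1

theorem XFX (hNOB : NOB_stmt) (hXUA : XUA_stmt) (hNUB : NUB_stmt) (hNUE : NUE_stmt) (hBAA : BAA_stmt) (hTPR : FI.TPR_stmt) :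
    XFX_stmt := by
  intro p e m M hS hme G _ _ χ hχ z x α hαE hst R₁ hR1 hαR hER ψ₁ hψ₁ hSB hU
  obtain ⟨⟨b1, b2, -, -, -, b6, -, -, -⟩, -, b3, b4, -⟩ := hBAA G M p α R₁ R₁ (cz R₁) ψ₁ ψ₁ χ
  obtain ⟨-, -, -, b4', -⟩ := hBAA G M p α R₁ R₁ (⊤ : Subgroup G) ψ₁ χ χ
  obtain ⟨-, t2, -, -, -⟩ := hTPR p M hS G
  have hK : am α (cz R₁) = cz R₁ := by rw [← b1, hαR]
  have hnK : nz (cz R₁) = ⊤ := by
    rw [eq_top_iff]
    intro g _
    have hg : g ∈ nz R₁ := by rw [hR1]; exact Subgroup.mem_top g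
    rw [Subgroup.mem_normalizer_iff]
    intro y
    refine ⟨fun hy => cz_conj hg hy, fun hy => ?_⟩
    have h1 := cz_conj ((nz R₁).inv_mem hg) hy
    have e : g⁻¹ * (g * y * g⁻¹) * g⁻¹⁻¹ = y := by group
    rwa [e] at h1
  have h1 : funMap α ψ₁ ∈ IrrOn (cz R₁) := by
    have h := b3.1 hψ₁
    rwa [hK] at h
  have h2 : SB M (⊤ : Subgroup G) (funMap α ψ₁) (funMap α χ) := by
    have h := b4'.1 hSB
    rwa [b6] at h
  have h3 : SB M (⊤ : Subgroup G) (funMap α χ) χ := (t2 _ _).1 hst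
  have h4 : SB M (⊤ : Subgroup G) ψ₁ (funMap α ψ₁) := hSB.trans (h2.trans h3).symm
  obtain ⟨g, -, hg⟩ := hNOB p M hS G (cz R₁) ⊤ le_top hnK.ge ψ₁ hψ₁ (funMap α ψ₁) h1 h4
  rw [← funMap_al] at hg
  have hgK : cjS g (cz R₁) = cz R₁ := (XFX_fix g _).2 (by rw [hnK]; exact Subgroup.mem_top g)
  have hβK : am (al α g) (cz R₁) = cz R₁ := by rw [am_al, hK, hgK]
  obtain ⟨-, u2, -, -⟩ := hXUA p e m M hS G (al α g)
  obtain ⟨u1, -, -, -⟩ := hXUA p e m M hS G (al α g)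
  have h5 := u2 (cz R₁) ψ₁ z x hU
  rw [hβK] at h5
  have h6 := (hNUB p e m M hS G (cz R₁) _ _ _ h5).1 ψ₁ hg
  obtain ⟨k, hk, hkE⟩ := hNUE p e m M hS hme G (cz R₁) ψ₁ hψ₁ z x _ _ hU h6
  rw [u1 z, am_al, hαE] at hkE
  have hkn : cjS k (Eg p e z) = Eg p e z := by
    rw [XFX_fix]
    have h7 : k ∈ cz (Eg p e z) := Subgroup.centralizer_le hER hk
    rw [Subgroup.mem_normalizer_iff]
    intro y
    have h8 := Subgroup.mem_centralizer_iff.1 h7
    constructor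
    · intro hy
      have h9 : k * y * k⁻¹ = y := by rw [← h8 y hy, mul_inv_cancel_right]
      rwa [h9]
    · intro hy
      have h9 : y = k * y * k⁻¹ := by
        have h10 := h8 _ hy
        have h11 : k * y = k * (k * y * k⁻¹) := by
          rw [← h10]
          group
        exact mul_left_cancel h11
      rw [h9]
      exact hy
  rw [hkn] at hkE
  exact ⟨g, (XFX_fix g _).1 hkE, hg⟩

end Pool.Agent.NAB
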