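import Pool.Agent.helper97.NA.SpecE

/-!
# Project nx, row XOU
-/

set_option autoImplicit false

namespace Pool.Agent.NAB

open Pool.Agent.helper58.DC Pool.Agent.DI Pool.Agent.GR Pool.Agent.OB Pool.Agent.DR Pool.Agent.FI Pool.Agent.FI3 Pool.Agent.FI4 Pool.Agent.FI4I Pool.Agent.FI4E Pool.Agent.LE Pool.Agent.L5

theorem XOU : XOU_stmt := by
  intro G _ N β n hN y hy hn k hk
  have hβ : ∀ c ∈ N, β c ∈ N := by
    intro c hc
    rw [← hN, mem_am, MulAut.inv_apply_self]
    exact hc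
  have key : ∀ j : ℕ, ∃ c ∈ N, (al β k) ^ j = MulAut.conj c * β ^ j := by
    intro j
    induction j with
    | zero => exact ⟨1, N.one_mem, by simp⟩
    | succ j ih =>
      obtain ⟨c, hc, e⟩ := ih
      refine ⟨k * β c, N.mul_mem hk (hβ c hc), ?_⟩
      rw [pow_succ', e, pow_succ']
      ext x
      simp only [MulAut.mul_apply, MulAut.conj_apply, al_apply, map_mul, map_inv, mul_inv_rev, mul_assoc]
  obtain ⟨c, hc, e⟩ := key n
  refine ⟨c * y, N.mul_mem hc hy, ?_⟩
  rw [e, hn, map_mul]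

end Pool.Agent.NAB
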